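import Pool.Agent.J4H26.PC.Q0

set_option autoImplicit false

/-!
# Project PC of helper26, job A1 (helper45): one step for window averages
-/

namespace Pool.Agent.J4H45.PC

open Finset Filter Real
open Pool.Agent.J4H39 hiding Ph
open Pool.Agent.J4H26.PC
open Pool.Agent.H499R2.CO (rho)

/-! ## Sums over intervals of integers -/

lemma cut (f : ℤ → ℝ) {x y z : ℤ} (h1 : x ≤ y) (h2 : y ≤ z) :
    ∑ n ∈ Finset.Ico x z, f n = ∑ n ∈ Finset.Ico x y, f n + ∑ n ∈ Finset.Ico y z, f n := by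
  rw [← Finset.Ico_union_Ico_eq_Ico h1 h2, Finset.sum_union (Finset.Ico_disjoint_Ico_consecutive x y z)]

lemma Ico_bd {f : ℤ → ℝ} (hf : ∀ n, |f n| ≤ 1) {x y : ℤ} (h : x ≤ y) :
    |∑ n ∈ Finset.Ico x y, f n| ≤ (y : ℝ) - x := by
  refine (Finset.abs_sum_le_sum_abs _ _).trans ?_
  refine (Finset.sum_le_card_nsmul _ _ 1 fun n _ => hf n).trans ?_
  rw [Int.card_Ico, nsmul_eq_mul, mul_one]
  have : ((y - x).toNat : ℤ) = y - x := Int.toNat_of_nonneg (by omega)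
  have h2 : (((y - x).toNat : ℤ) : ℝ) = (y : ℝ) - x := by rw [this]; push_cast; ring
  rw [← h2]
  push_cast
  exact le_rfl

lemma prim_bd {f : ℤ → ℝ} (hf : ∀ n, |f n| ≤ 1) {m x y : ℤ} (hx : m ≤ x) (hy : m ≤ y) :
    |∑ n ∈ Finset.Ico m x, f n - ∑ n ∈ Finset.Ico m y, f n| ≤ |(x : ℝ) - y| := by
  rcases le_total x y with h | h
  · rw [cut f hx h, sub_add_cancel_left, abs_neg]
    refine (Ico_bd hf h).trans ?_
    rw [abs_sub_comm]
    exact le_abs_self _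
  · rw [cut f hy h, add_sub_cancel_left]
    exact (Ico_bd hf h).trans (le_abs_self _)

lemma Ico_diff {f : ℤ → ℝ} (hf : ∀ n, |f n| ≤ 1) {a b c d : ℤ} (hab : a ≤ b) (hcd : c ≤ d) :
    |∑ n ∈ Finset.Ico a b, f n - ∑ n ∈ Finset.Ico c d, f n| ≤ |(a : ℝ) - c| + |(b : ℝ) - d| := by
  obtain ⟨m, hm⟩ : ∃ m : ℤ, m = min a c := ⟨_, rfl⟩
  have h1 : m ≤ a := by rw [hm]; exact min_le_left _ _
  have h2 : m ≤ c := by rw [hm]; exact min_le_right _ _
  have e1 := cut f h1 hab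
  have e2 := cut f h2 hcd
  have b1 := prim_bd hf h1 h2
  have b2 := prim_bd hf (h1.trans hab) (h2.trans hcd)
  have e3 : ∑ n ∈ Finset.Ico a b, f n - ∑ n ∈ Finset.Ico c d, f n =
      (∑ n ∈ Finset.Ico m b, f n - ∑ n ∈ Finset.Ico m d, f n) -
        (∑ n ∈ Finset.Ico m a, f n - ∑ n ∈ Finset.Ico m c, f n) := by
    rw [e1, e2]; ring
  rw [e3]
  refine (abs_sub _ _).trans ?_
  linarith

lemma range_Ico (f : ℤ → ℝ) (p : ℤ) (L : ℕ) :
    ∑ i ∈ range L, f (p + (i : ℕ)) = ∑ n ∈ Finset.Ico p (p + L), f n := by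
  induction L with
  | zero => simp
  | succ L ih =>
    rw [sum_range_succ, ih, cut f (x := p) (y := p + L) (z := p + (L + 1 : ℕ)) (by omega) (by push_cast; omega)]
    congr 1
    have : Finset.Ico (p + (L : ℤ)) (p + ((L + 1 : ℕ) : ℤ)) = {p + (L : ℤ)} := by
      ext n
      rw [Finset.mem_Ico, Finset.mem_singleton]
      push_cast
      constructor
      · intro h; omega
      · intro h; omega
    rw [this, Finset.sum_singleton]

/-- the average over `[p, p + L)` -/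
noncomputable def av (f : ℤ → ℝ) (p : ℤ) (L : ℕ) : ℝ := (∑ i ∈ range L, f (p + (i : ℕ))) / L

lemma Ph_cmp {f : ℤ → ℝ} (hf : ∀ n, |f n| ≤ 1) {x a R : ℝ} {p : ℤ} {L : ℕ} (hR : 1 ≤ R) (hL : 1 ≤ L)
    (ha : 1 ≤ a) (h1 : |x - p| ≤ R) (h2 : |a - L| ≤ R) : |Ph f x a - av f p L| ≤ 6 * R / a := by
  have ha0 : 0 < a := by linarith
  have hL0 : (0 : ℝ) < L := by exact_mod_cast hL
  unfold Ph av
  rw [max_eq_left ha, range_Ico]
  set S := ∑ n ∈ Finset.Ico ⌈x⌉ ⌈x + a⌉, f n with hS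
  set S' := ∑ n ∈ Finset.Ico p (p + L), f n with hS'
  have hd : |S - S'| ≤ |((⌈x⌉ : ℤ) : ℝ) - p| + |((⌈x + a⌉ : ℤ) : ℝ) - ((p + L : ℤ) : ℝ)| :=
    Ico_diff hf (Int.ceil_le_ceil (by linarith)) (by omega)
  have hSb : |S'| ≤ L := by
    have := Ico_bd hf (x := p) (y := p + L) (by omega)
    refine this.trans (le_of_eq ?_)
    push_cast; ring
  have c1 := Int.le_ceil x
  have c2 := Int.ceil_lt_add_one x
  have c3 := Int.le_ceil (x + a)
  have c4 := Int.ceil_lt_add_one (x + a)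
  rw [abs_le] at h1 h2
  have d1 : |((⌈x⌉ : ℤ) : ℝ) - p| ≤ R + 1 := by rw [abs_le]; constructor <;> linarith [h1.1, h1.2]
  have d2 : |((⌈x + a⌉ : ℤ) : ℝ) - ((p + L : ℤ) : ℝ)| ≤ 2 * R + 1 := by
    push_cast
    rw [abs_le]
    constructor <;> linarith [h1.1, h1.2, h2.1, h2.2]
  have e : S / a - S' / L = (S - S') / a + S' / L * ((L - a) / a) := by
    field_simp
    ring
  rw [e]
  refine (abs_add_le _ _).trans ?_
  rw [abs_div, abs_mul, abs_div, abs_div, abs_of_pos ha0, abs_of_pos hL0]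
  have b1 : |S - S'| / a ≤ (3 * R + 2) / a := by
    apply div_le_div_of_nonneg_right _ ha0.le
    linarith
  have b2 : |S'| / L * (|(L : ℝ) - a| / a) ≤ 1 * (R / a) := by
    apply mul_le_mul
    · rw [div_le_one hL0]; exact hSb
    · apply div_le_div_of_nonneg_right _ ha0.le
      rw [abs_le]; constructor <;> linarith [h2.1, h2.2]
    · positivity
    · norm_num
  have b3 : (3 * R + 2) / a + 1 * (R / a) ≤ 6 * R / a := by
    rw [one_mul, ← add_div]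
    apply div_le_div_of_nonneg_right _ ha0.le
    linarith
  linarith

lemma Ph_bd {f : ℤ → ℝ} (hf : ∀ n, |f n| ≤ 1) {x a : ℝ} (ha : 0 ≤ a) : |Ph f x a| ≤ 2 := by
  unfold Ph
  have c1 := Int.le_ceil x
  have c4 := Int.ceil_lt_add_one (x + a)
  have hb := Ico_bd hf (x := ⌈x⌉) (y := ⌈x + a⌉) (Int.ceil_le_ceil (by linarith))
  have hm : 0 < max a 1 := lt_of_lt_of_le one_pos (le_max_right _ _)
  rw [abs_div, abs_of_pos hm, div_le_iff₀ hm]
  have m1 := le_max_left a 1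
  have m2 := le_max_right a 1
  linarith

lemma exd {s : ℕ} {f g : ℤ → ℝ} {c : ℝ} (h : ∀ y, |f y - g y| ≤ c) : |ex s f - ex s g| ≤ c := by
  have h1 : ex s f ≤ ex s g + c := by
    have := ex_mono (j := s) (f := f) (g := fun y => g y + c) (fun y => by
      have := (abs_le.1 (h y)).2
      linarith)
    rwa [ex_add, ex_const] at this
  have h2 : ex s g ≤ ex s f + c := by
    have := ex_mono (j := s) (f := g) (g := fun y => f y + c) (fun y => by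
      have := (abs_le.1 (h y)).1
      linarith)
    rwa [ex_add, ex_const] at this
  rw [abs_le]
  constructor <;> linarith

/-! ## The invariant function, shifted to `[0, 1]` -/

/-- the function shifted to `[0, 1]` -/
noncomputable def sg (f : ℤ → ℝ) (z : ℤ) : ℝ := (f z + 1) / 2

lemma sg_nonneg {f : ℤ → ℝ} (hf : Iv f) (z : ℤ) : 0 ≤ sg f z := by
  have := (abs_le.1 (hf.bd z)).1
  unfold sg
  linarith

lemma sg_le {f : ℤ → ℝ} (hf : Iv f) (z : ℤ) : sg f z ≤ 1 := by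
  have := (abs_le.1 (hf.bd z)).2
  unfold sg
  linarith

lemma inv_iter {f : ℤ → ℝ} (hf : Iv f) (k : ℕ) (n : ℤ) : f (T^[k] n) = f n := by
  induction k with
  | zero => rfl
  | succ k ih => rw [Function.iterate_succ_apply', hf.inv, ih]

lemma sg_iter {f : ℤ → ℝ} (hf : Iv f) (k : ℕ) (n : ℤ) : sg f (T^[k] n) = sg f n := by
  unfold sg
  rw [inv_iter hf]

lemma av_sg (f : ℤ → ℝ) (p : ℤ) {L : ℕ} (hL : 1 ≤ L) : av (sg f) p L = (av f p L + 1) / 2 := by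
  have hL0 : (0 : ℝ) < L := by exact_mod_cast hL
  unfold av sg
  rw [← Finset.sum_div, sum_add_distrib, sum_const, card_range, nsmul_eq_mul, mul_one]
  field_simp

/-- quick merging -/
lemma sg_diff {f : ℤ → ℝ} (hf : Iv f) (k : ℕ) (n h : ℤ) :
    |sg f (n + h) - sg f n| ≤ id1 (rn stP k (0, h) n ≠ (0, 0)) := by
  by_cases hm : rn stP k (0, h) n = (0, 0)
  · obtain ⟨a1, -⟩ := merge_of_rn (rel_zero h n) hm
    have : sg f (n + h) = sg f n := by rw [← sg_iter hf k (n + h), ← a1, sg_iter hf]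
    rw [this, sub_self, abs_zero]
    exact id1_nonneg _
  · rw [id1_pos hm, abs_le]
    have b1 := sg_nonneg hf (n + h)
    have b2 := sg_le hf (n + h)
    have b3 := sg_nonneg hf n
    have b4 := sg_le hf n
    constructor <;> linarith

/-- the averages over the classes modulo `3 ^ m` are nearly equal -/
lemma cls_sg {f : ℤ → ℝ} (hf : Iv f) {m k : ℕ} {η : ℝ}
    (hη : ∀ r : ℤ, |r| ≤ 4 ^ (m + 1) → ns k (0, r) ≤ η) {c : ℤ} (hc0 : 0 ≤ c) (hc1 : c < 3 ^ m)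
    (v₁ : ℤ) {Z : ℕ} (hZ : 2 ^ k ≤ Z) :
    |∑ i ∈ range Z, sg f (c + 3 ^ m * (v₁ + (i : ℕ))) -
      (∑ v ∈ range (3 ^ m * Z), sg f (3 ^ m * v₁ + (v : ℕ))) / 3 ^ m| ≤ 2 * η * Z := by
  set S : ℤ → ℝ := fun c => ∑ i ∈ range Z, sg f (c + 3 ^ m * (v₁ + (i : ℕ))) with hS
  have h34 : (3 : ℤ) ^ m ≤ 4 ^ (m + 1) :=
    (pow_le_pow_left₀ (by norm_num) (by norm_num) m).trans (pow_le_pow_right₀ (by norm_num) (by omega))
  have key : ∀ e ∈ range (3 ^ m), |S c - S (e : ℕ)| ≤ 2 * η * Z := by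
    intro e he
    rw [mem_range] at he
    have he' : ((e : ℕ) : ℤ) < 3 ^ m := by exact_mod_cast he
    have hr : ns k (0, c - (e : ℕ)) ≤ η := by
      apply hη
      rw [abs_le]
      constructor <;> omega
    rw [hS]
    simp only
    rw [← sum_sub_distrib]
    refine (abs_sum_le_sum_abs _ _).trans ?_
    have hpt : ∀ i ∈ range Z, |sg f (c + 3 ^ m * (v₁ + (i : ℕ))) - sg f ((e : ℕ) + 3 ^ m * (v₁ + (i : ℕ)))| ≤
        id1 (rn stP k (0, c - (e : ℕ)) (3 ^ m * ((i : ℕ) : ℤ) + ((e : ℕ) + 3 ^ m * v₁)) ≠ (0, 0)) := by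
      intro i _
      have := sg_diff hf k (3 ^ m * ((i : ℕ) : ℤ) + ((e : ℕ) + 3 ^ m * v₁)) (c - (e : ℕ))
      have e1 : 3 ^ m * ((i : ℕ) : ℤ) + ((e : ℕ) + 3 ^ m * v₁) + (c - (e : ℕ)) = c + 3 ^ m * (v₁ + (i : ℕ)) := by
        ring
      have e2 : 3 ^ m * ((i : ℕ) : ℤ) + ((e : ℕ) + 3 ^ m * v₁) = (e : ℕ) + 3 ^ m * (v₁ + (i : ℕ)) := by
        ring
      rw [e1] at this
      rw [e2] at this ⊢
      exact this
    refine (sum_le_sum hpt).trans ?_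
    refine (cnt_aff (per_ns k (0, c - (e : ℕ))) (pow3_odd m) ((e : ℕ) + 3 ^ m * v₁) Z).trans ?_
    have h6 : ((Z : ℝ) + 2 ^ k) ≤ 2 * Z := by
      have : ((2 : ℝ) ^ k) ≤ Z := by exact_mod_cast hZ
      linarith
    calc ((Z : ℝ) + 2 ^ k) * pb k (fun y => rn stP k (0, c - (e : ℕ)) y ≠ (0, 0)) ≤ (2 * Z) * η :=
          mul_le_mul h6 hr (pb_nonneg _ _) (by positivity)
      _ = 2 * η * Z := by ring
  have e4 : ∑ v ∈ range (3 ^ m * Z), sg f (3 ^ m * v₁ + (v : ℕ)) = ∑ e ∈ range (3 ^ m), S (e : ℕ) := by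
    rw [sum_block, sum_comm]
    apply sum_congr rfl
    intro e _
    rw [hS]
    apply sum_congr rfl
    intro i _
    congr 1
    push_cast; ring
  have hp : (0 : ℝ) < 3 ^ m := by positivity
  have e5 : S c - (∑ e ∈ range (3 ^ m), S (e : ℕ)) / 3 ^ m = (∑ e ∈ range (3 ^ m), (S c - S (e : ℕ))) / 3 ^ m := by
    rw [sum_sub_distrib, sum_const, card_range, nsmul_eq_mul]
    push_cast
    field_simp
  rw [e4]
  change |S c - _| ≤ _
  rw [e5, abs_div, abs_of_pos hp, div_le_iff₀ hp]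
  refine (abs_sum_le_sum_abs _ _).trans ((sum_le_sum key).trans (le_of_eq ?_))
  rw [sum_const, card_range, nsmul_eq_mul]; push_cast; ring

/-- the trivial tuple -/
def s0 : Fin 0 → ℤ × ℤ := fun i => i.elim0

/-- one step between intervals of integers -/
lemma step_av {f : ℤ → ℝ} (hf : Iv f) {j m k o₀ : ℕ} {η : ℝ}
    (hη : ∀ r : ℤ, |r| ≤ 4 ^ (m + 1) → ns k (0, r) ≤ η) (hmk : m + k ≤ o₀) (v₀ : ℤ) {Y : ℕ}
    (hY : 1 ≤ Y) :
    |av f (2 ^ j * v₀) (2 ^ j * Y) - ex j (fun w => av f (3 ^ od j w * v₀) (3 ^ od j w * Y))| ≤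
      2 * (DV stK j s0 m + 2 * η + pb j (fun w => ¬ (o₀ ≤ od j w))) := by
  have hη0 : 0 ≤ η := (ns_nonneg k (0, 0)).trans (hη 0 (by simp))
  have hY0 : (0 : ℝ) < Y := by exact_mod_cast hY
  have avb : ∀ p (L : ℕ), 1 ≤ L → 0 ≤ av (sg f) p L ∧ av (sg f) p L ≤ 1 := by
    intro p L hL
    have hL0 : (0 : ℝ) < L := by exact_mod_cast hL
    unfold av
    constructor
    · exact div_nonneg (sum_nonneg fun _ _ => sg_nonneg hf _) hL0.le
    · rw [div_le_one hL0]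
      have : ∑ i ∈ range L, sg f (p + (i : ℕ)) ≤ ∑ i ∈ range L, (1 : ℝ) := sum_le_sum fun _ _ => sg_le hf _
      rwa [sum_const, card_range, nsmul_eq_mul, mul_one] at this
  have hpos : ∀ o : ℕ, 1 ≤ 3 ^ o * Y := fun o => Nat.one_le_iff_ne_zero.2 (by positivity)
  have key := stage stK s0 (j := j) (m := m) (fun _ z => sg f z) (fun _ z => sg_nonneg hf z)
    (fun _ z => sg_le hf z) (fun μ => av (sg f) (3 ^ μ.1 * v₀) (3 ^ μ.1 * Y))
    (fun μ => (avb _ _ (hpos _)).1) (fun μ => (avb _ _ (hpos _)).2) v₀ Y (δ := 2 * η) (by positivity)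
    (fun μ => o₀ ≤ μ.1) (fun μ hμ => by omega) (by
      intro w hw hgood c hc0 hc1 hd
      set o := (lb stK j s0 ((w : ℕ) : ℤ)).1 with ho
      have hmo : m ≤ o := by omega
      have hZ : 2 ^ k ≤ 3 ^ (o - m) * Y := by
        calc 2 ^ k ≤ 3 ^ k := Nat.pow_le_pow_left (by norm_num) k
          _ ≤ 3 ^ (o - m) := Nat.pow_le_pow_right (by norm_num) (by omega)
          _ ≤ 3 ^ (o - m) * Y := Nat.le_mul_of_pos_right _ hY
      have h1 := cls_sg hf hη hc0 hc1 (3 ^ (o - m) * v₀) hZ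
      have e0 : 3 ^ m * (3 ^ (o - m) * Y) = 3 ^ o * Y := by
        rw [← mul_assoc, ← pow_add]; congr 2; omega
      have e0z : (3 : ℤ) ^ m * (3 ^ (o - m) * v₀) = 3 ^ o * v₀ := by
        rw [← mul_assoc, ← pow_add]; congr 2; omega
      rw [e0, e0z] at h1
      have e1 : (∑ v ∈ range (3 ^ o * Y), sg f (3 ^ o * v₀ + (v : ℕ))) / 3 ^ m =
          ((3 ^ (o - m) * Y : ℕ) : ℝ) * av (sg f) (3 ^ o * v₀) (3 ^ o * Y) := by
        unfold av
        have e2 : ((3 ^ o * Y : ℕ) : ℝ) = 3 ^ m * ((3 ^ (o - m) * Y : ℕ) : ℝ) := by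
          rw [← e0]; push_cast; ring
        have e3 : (0 : ℝ) < ((3 ^ (o - m) * Y : ℕ) : ℝ) := by exact_mod_cast hpos (o - m)
        rw [e2]
        field_simp
      rw [e1] at h1
      exact h1)
  have e1 : ex j (fun w => ∑ v ∈ range Y, sg f (T^[j] w % 3 ^ od j w + 3 ^ od j w * (v₀ + (v : ℕ)))) =
      (∑ u ∈ range (2 ^ j * Y), sg f (2 ^ j * v₀ + (u : ℕ))) / 2 ^ j := by
    unfold ex
    congr 1
    rw [sum_block, sum_comm]
    apply sum_congr rfl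
    intro v _
    apply sum_congr rfl
    intro w hw
    rw [mem_range] at hw
    rw [T_mod j (by positivity) (by exact_mod_cast hw), ← T_add, sg_iter hf]
    congr 1
    push_cast; ring
  rw [e1] at key
  have h2j : (0 : ℝ) < 2 ^ j := by positivity
  have e2 : (∑ u ∈ range (2 ^ j * Y), sg f (2 ^ j * v₀ + (u : ℕ))) / 2 ^ j = Y * av (sg f) (2 ^ j * v₀) (2 ^ j * Y) := by
    unfold av
    push_cast
    field_simp
  rw [e2, ← mul_sub, abs_mul, abs_of_pos hY0] at key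
  have key2 := le_of_mul_le_mul_left key hY0
  have e3 : ex j (fun w => av (sg f) (3 ^ (lb stK j s0 w).1 * v₀) (3 ^ (lb stK j s0 w).1 * Y)) =
      (ex j (fun w => av f (3 ^ od j w * v₀) (3 ^ od j w * Y)) + 1) / 2 := by
    have h : ∀ w : ℤ, av (sg f) (3 ^ (lb stK j s0 w).1 * v₀) (3 ^ (lb stK j s0 w).1 * Y) =
        (1 / 2) * av f (3 ^ od j w * v₀) (3 ^ od j w * Y) + 1 / 2 := by
      intro w
      rw [av_sg f _ (hpos _)]
      change (av f (3 ^ od j w * v₀) (3 ^ od j w * Y) + 1) / 2 = _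
      ring
    rw [ex_congr h, ex_add, ex_mul, ex_const]; ring
  have hp2 : 1 ≤ 2 ^ j * Y := Nat.one_le_iff_ne_zero.2 (by positivity)
  rw [e3, av_sg f _ hp2] at key2
  have e4 : (av f (2 ^ j * v₀) (2 ^ j * Y) + 1) / 2 -
      (ex j (fun w => av f (3 ^ od j w * v₀) (3 ^ od j w * Y)) + 1) / 2 =
      (av f (2 ^ j * v₀) (2 ^ j * Y) - ex j (fun w => av f (3 ^ od j w * v₀) (3 ^ od j w * Y))) / 2 := by ring
  rw [e4, abs_div, abs_of_pos (by norm_num : (0 : ℝ) < 2), div_le_iff₀ (by norm_num)] at key2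
  have e5 : (fun w => ¬ (o₀ ≤ (lb stK j s0 w).1)) = fun w => ¬ (o₀ ≤ od j w) := rfl
  rw [e5] at key2
  linarith

/-- one step for real windows -/
lemma step_Ph {f : ℤ → ℝ} (hf : Iv f) {j m k o₀ : ℕ} {η : ℝ}
    (hη : ∀ r : ℤ, |r| ≤ 4 ^ (m + 1) → ns k (0, r) ≤ η) (hmk : m + k ≤ o₀) {x a : ℝ}
    (ha : (2 : ℝ) ^ (2 * j) ≤ a) :
    |Ph f x a - ex j (fun y => Ph f (3 ^ od j y * x / 2 ^ j) (3 ^ od j y * a / 2 ^ j))| ≤
      12 / 2 ^ j + 2 * (DV stK j s0 m + 2 * η + pb j (fun w => ¬ (o₀ ≤ od j w))) := by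
  have h2 : (0 : ℝ) < 2 ^ j := by positivity
  have h21 : (1 : ℝ) ≤ 2 ^ j := one_le_pow₀ (by norm_num)
  have ha' : (2 : ℝ) ^ j * 2 ^ j ≤ a := by rw [← pow_add, ← two_mul]; exact ha
  have ha1 : 1 ≤ a := le_trans (by nlinarith) ha'
  have ha0 : 0 < a := by linarith
  obtain ⟨v₀, hv₀⟩ : ∃ v₀ : ℤ, v₀ = ⌊x / 2 ^ j⌋ := ⟨_, rfl⟩
  obtain ⟨Y, hY⟩ : ∃ Y : ℕ, Y = ⌊a / 2 ^ j⌋₊ := ⟨_, rfl⟩
  have haj : (2 : ℝ) ^ j ≤ a / 2 ^ j := by rw [le_div_iff₀ h2]; exact ha'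
  have v1 : (v₀ : ℝ) ≤ x / 2 ^ j := by rw [hv₀]; exact Int.floor_le _
  have v2 : x / 2 ^ j < v₀ + 1 := by rw [hv₀]; exact Int.lt_floor_add_one _
  have y1 : (Y : ℝ) ≤ a / 2 ^ j := by rw [hY]; exact Nat.floor_le (by positivity)
  have y2 : a / 2 ^ j < Y + 1 := by rw [hY]; exact Nat.lt_floor_add_one _
  have hY1 : 1 ≤ Y := by
    rw [hY]
    apply Nat.le_floor
    push_cast
    linarith
  have q1 : |x / 2 ^ j - v₀| ≤ 1 := by rw [abs_le]; constructor <;> linarith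
  have q2 : |a / 2 ^ j - Y| ≤ 1 := by rw [abs_le]; constructor <;> linarith
  -- the interval before the step
  have A1 : |Ph f x a - av f (2 ^ j * v₀) (2 ^ j * Y)| ≤ 6 / 2 ^ j := by
    have h := Ph_cmp hf.bd (x := x) (a := a) (R := 2 ^ j) (p := 2 ^ j * v₀) (L := 2 ^ j * Y) h21
      (Nat.one_le_iff_ne_zero.2 (by positivity)) ha1 (by
        have e : x - ((2 ^ j * v₀ : ℤ) : ℝ) = 2 ^ j * (x / 2 ^ j - v₀) := by
          push_cast; field_simp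
        rw [e, abs_mul, abs_of_pos h2]
        nlinarith) (by
        have e : a - ((2 ^ j * Y : ℕ) : ℝ) = 2 ^ j * (a / 2 ^ j - Y) := by
          push_cast; field_simp
        rw [e, abs_mul, abs_of_pos h2]
        nlinarith)
    refine h.trans ?_
    rw [div_le_div_iff₀ ha0 h2]
    nlinarith
  -- the intervals after the step
  have A2 : ∀ y : ℤ, |av f (3 ^ od j y * v₀) (3 ^ od j y * Y) -
      Ph f (3 ^ od j y * x / 2 ^ j) (3 ^ od j y * a / 2 ^ j)| ≤ 6 / 2 ^ j := by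
    intro y
    obtain ⟨o, ho⟩ : ∃ o, o = od j y := ⟨_, rfl⟩
    rw [← ho]
    have h3 : (1 : ℝ) ≤ 3 ^ o := one_le_pow₀ (by norm_num)
    have h30 : (0 : ℝ) < 3 ^ o := by positivity
    have hb : (3 : ℝ) ^ o * 2 ^ j ≤ 3 ^ o * a / 2 ^ j := by
      rw [mul_div_assoc]
      exact mul_le_mul_of_nonneg_left haj h30.le
    have hb1 : 1 ≤ 3 ^ o * a / 2 ^ j := le_trans (by nlinarith) hb
    have h := Ph_cmp hf.bd (x := 3 ^ o * x / 2 ^ j) (a := 3 ^ o * a / 2 ^ j) (R := 3 ^ o) (p := 3 ^ o * v₀)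
      (L := 3 ^ o * Y) h3 (Nat.one_le_iff_ne_zero.2 (by positivity)) hb1 (by
        have e : 3 ^ o * x / 2 ^ j - ((3 ^ o * v₀ : ℤ) : ℝ) = 3 ^ o * (x / 2 ^ j - v₀) := by
          push_cast; ring
        rw [e, abs_mul, abs_of_pos h30]
        nlinarith) (by
        have e : 3 ^ o * a / 2 ^ j - ((3 ^ o * Y : ℕ) : ℝ) = 3 ^ o * (a / 2 ^ j - Y) := by
          push_cast; ring
        rw [e, abs_mul, abs_of_pos h30]
        nlinarith)
    rw [abs_sub_comm]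
    refine h.trans ?_
    rw [div_le_div_iff₀ (by linarith) h2]
    nlinarith
  have A3 := exd (s := j) A2
  have A4 := step_av hf (j := j) hη hmk v₀ hY1
  have e : Ph f x a - ex j (fun y => Ph f (3 ^ od j y * x / 2 ^ j) (3 ^ od j y * a / 2 ^ j)) =
      (Ph f x a - av f (2 ^ j * v₀) (2 ^ j * Y)) +
      (av f (2 ^ j * v₀) (2 ^ j * Y) - ex j (fun w => av f (3 ^ od j w * v₀) (3 ^ od j w * Y))) +
      (ex j (fun w => av f (3 ^ od j w * v₀) (3 ^ od j w * Y)) -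
        ex j (fun y => Ph f (3 ^ od j y * x / 2 ^ j) (3 ^ od j y * a / 2 ^ j))) := by ring
  rw [e]
  refine (abs_add_three _ _ _).trans ?_
  have e6 : (12 : ℝ) / 2 ^ j = 6 / 2 ^ j + 6 / 2 ^ j := by ring
  rw [e6]
  linarith

/-! ## The rate -/

theorem eta_rate : ∃ C : ℝ, 0 < C ∧ ∀ᶠ z : ℕ in atTop, ∀ j, z ^ 20 ≤ j → j ≤ 2 * z ^ 20 →
    ∀ r : ℤ, |r| ≤ 4 ^ (z ^ 19 + 1) → ns (j / 8) (0, r) ≤ C * √ (1 / √ (z : ℝ)) := by
  obtain ⟨C, hC, hrate⟩ := ns_rate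
  refine ⟨C * √ 2752, by positivity, ?_⟩
  filter_upwards [eventually_ge_atTop 16] with z h4
  intro j hj hj2 r hr
  have hz0 : (16 : ℝ) ≤ z := by exact_mod_cast h4
  have hzp : (0 : ℝ) < z := by linarith
  have hz1 : (1 : ℝ) ≤ z := by linarith
  have p19' : 1 ≤ z ^ 19 := Nat.one_le_pow _ _ (by omega)
  have hk16 : z ^ 20 ≤ 16 * (j / 8) := by
    have : 16 ≤ z ^ 20 := le_trans h4 (Nat.le_self_pow (by norm_num) z)
    omega
  have hk1 : 1 ≤ j / 8 := by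
    have : 1 ≤ z ^ 20 := Nat.one_le_pow _ _ (by omega)
    omega
  refine (hrate (j / 8) hk1 0 (z ^ 19 + 1) r (by exact_mod_cast hr)).trans ?_
  rw [mul_assoc, mul_assoc]
  apply mul_le_mul_of_nonneg_left _ hC.le
  rw [← Real.sqrt_mul (by norm_num : (0 : ℝ) ≤ 2752)]
  unfold rho
  rw [← Real.sqrt_mul (by positivity)]
  apply Real.sqrt_le_sqrt
  have hlog := log_n_le (z := z) (n := j / 8 + 1) (by omega) (by omega) (by omega)
  have a1 : 1 + (((0 : ℤ) : ℝ)) ^ 2 + ((z ^ 19 + 1 : ℕ) : ℝ) ≤ 4 * (z : ℝ) ^ 19 := by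
    have : 1 + (z ^ 19 + 1) ≤ 4 * z ^ 19 := by omega
    have : ((1 + (z ^ 19 + 1) : ℕ) : ℝ) ≤ 4 * (z : ℝ) ^ 19 := by exact_mod_cast this
    push_cast at this ⊢
    linarith
  have hkr : (z : ℝ) ^ 20 / 16 ≤ ((j / 8 : ℕ) : ℝ) := by
    have : (z : ℝ) ^ 20 ≤ 16 * ((j / 8 : ℕ) : ℝ) := by exact_mod_cast hk16
    linarith
  have hlog0 : 0 ≤ Real.log (((j / 8 : ℕ) : ℝ) + 1) := Real.log_nonneg (by
      have : (0 : ℝ) ≤ ((j / 8 : ℕ) : ℝ) := by positivity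
      linarith)
  push_cast at hlog
  have hs : √ (z : ℝ) * √ z = z := Real.mul_self_sqrt hzp.le
  have hs0 : 0 < √ (z : ℝ) := Real.sqrt_pos.2 hzp
  calc (1 + (((0 : ℤ) : ℝ)) ^ 2 + ((z ^ 19 + 1 : ℕ) : ℝ)) *
        (Real.log (((j / 8 : ℕ) : ℝ) + 1) / ((j / 8 : ℕ) : ℝ)) ≤
        (4 * (z : ℝ) ^ 19) * ((43 * √ z) / ((z : ℝ) ^ 20 / 16)) := by gcongr
    _ = 2752 * (√ z / z) := by field_simp; norm_num
    _ = 2752 * (1 / √ z) := by
        congr 1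
        rw [div_eq_div_iff hzp.ne' hs0.ne', one_mul, hs]

lemma inv_le_q {z : ℝ} (hz : 1 ≤ z) : 1 / z ≤ √ (1 / √ z) := by
  have hzp : 0 < z := by linarith
  apply Real.le_sqrt_of_sq_le
  rw [div_pow, one_pow]
  apply div_le_div_of_nonneg_left (by norm_num) (Real.sqrt_pos.2 hzp)
  rw [Real.sqrt_le_left (by positivity), ← pow_mul]
  exact le_self_pow₀ hz (by norm_num)

/-- comparison of the powers of `z` and `j` -/
lemma pow_cmp {z j : ℕ} (hz : 1 ≤ z) (hj : 1 ≤ j) (h : j ≤ 2 * z ^ 20) :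
    √ (1 / √ (z : ℝ)) ≤ 2 * (j : ℝ) ^ (-(1 / 80) : ℝ) := by
  have hz0 : (0 : ℝ) < z := by exact_mod_cast hz
  have hj0 : (0 : ℝ) < j := by exact_mod_cast hj
  have e1 : √ (1 / √ (z : ℝ)) = (z : ℝ) ^ (-(1 / 4) : ℝ) := by
    rw [Real.sqrt_div zero_le_one, Real.sqrt_one, Real.sqrt_eq_rpow, Real.sqrt_eq_rpow, ← Real.rpow_mul hz0.le,
      Real.rpow_neg hz0.le, one_div]
    norm_num
  have h1 : (j : ℝ) ≤ 2 * (z : ℝ) ^ 20 := by exact_mod_cast h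
  have h2 : (j : ℝ) ^ ((1 / 80 : ℝ)) ≤ 2 * (z : ℝ) ^ ((1 / 4 : ℝ)) := by
    calc (j : ℝ) ^ ((1 / 80 : ℝ)) ≤ (2 * (z : ℝ) ^ 20) ^ ((1 / 80 : ℝ)) :=
          Real.rpow_le_rpow hj0.le h1 (by norm_num)
      _ = 2 ^ ((1 / 80 : ℝ)) * ((z : ℝ) ^ 20) ^ ((1 / 80 : ℝ)) := Real.mul_rpow (by norm_num) (by positivity)
      _ = 2 ^ ((1 / 80 : ℝ)) * (z : ℝ) ^ ((1 / 4 : ℝ)) := by
          rw [← Real.rpow_natCast, ← Real.rpow_mul hz0.le]; norm_num
      _ ≤ 2 * (z : ℝ) ^ ((1 / 4 : ℝ)) := by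
          apply mul_le_mul_of_nonneg_right _ (by positivity)
          calc (2 : ℝ) ^ ((1 / 80 : ℝ)) ≤ 2 ^ (1 : ℝ) := Real.rpow_le_rpow_of_exponent_le (by norm_num) (by norm_num)
            _ = 2 := Real.rpow_one 2
  rw [e1, Real.rpow_neg hz0.le, Real.rpow_neg hj0.le, ← div_eq_mul_inv, inv_eq_one_div,
    div_le_div_iff₀ (by positivity) (by positivity), one_mul]
  exact h2

lemma fin_arith {A D P q C z : ℝ} (d1 : D ≤ 1 / z) (d2 : P ≤ 1 / z) (hq : 1 / z ≤ q)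
    (h2 : A ≤ 12 * (1 / z)) (hC : 0 ≤ C) : A + 2 * (D + 2 * (C * q) + P) ≤ (16 + 4 * C) * q := by
  nlinarith

/-- **Job A1.** -/
theorem t_ST1 (hD : S_DVR) (hL : S_LABR) : S_ST1 := by
  obtain ⟨C, hC, he⟩ := eta_rate
  obtain ⟨z₀, hz₀⟩ := eventually_atTop.1 ((hD 0 0 1).and ((hL 0 0 1).and (he.and (eventually_ge_atTop 40))))
  refine ⟨2 * (16 + 4 * C) + 4 * (z₀ : ℝ) ^ 20 + 4, by positivity, ?_⟩
  intro j hj f hf x a ha
  have hj0 : (0 : ℝ) < j := by exact_mod_cast hj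
  have hj1 : (1 : ℝ) ≤ j := by exact_mod_cast hj
  have hjp : 0 < (j : ℝ) ^ (-(1 / 80) : ℝ) := Real.rpow_pos_of_pos hj0 _
  obtain ⟨z, hr1, hr2⟩ := root20 j
  by_cases hz : z₀ ≤ z
  · obtain ⟨h1, h2, h3, h4⟩ := hz₀ z hz
    have hj2 : j ≤ 2 * z ^ 20 := hr2.le.trans (succ20 h4)
    have d1 := h1 j hr1 hj2 s0 (fun i => i.elim0) (Cm_nonneg fun i => i.elim0)
    have d2 := h2 j hr1 hj2 s0 (fun i => i.elim0)
    have d3 := h3 j hr1 hj2
    rw [pow_one] at d1 d2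
    have d2' : pb j (fun w => ¬ ((j - z ^ 11) / 2 ≤ od j w)) ≤ 1 / (z : ℝ) := by
      refine le_trans (pb_mono ?_) d2
      intro w hw hh
      exact hw hh.1
    have p11 : z ^ 11 ≤ z ^ 19 := Nat.pow_le_pow_right (by omega) (by norm_num)
    have p40 : 40 * z ^ 19 ≤ j := by
      calc 40 * z ^ 19 ≤ z * z ^ 19 := Nat.mul_le_mul_right _ h4
        _ = z ^ 20 := by ring
        _ ≤ j := hr1
    have p1 : 1 ≤ z ^ 19 := Nat.one_le_pow _ _ (by omega)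
    have key := step_Ph hf (j := j) (m := z ^ 19) (k := j / 8) (o₀ := (j - z ^ 11) / 2) d3 (by omega) (x := x) ha
    refine key.trans ?_
    have hzr : (1 : ℝ) ≤ z := by exact_mod_cast (by omega : 1 ≤ z)
    have hzp : (0 : ℝ) < z := by linarith
    have hq := inv_le_q hzr
    have hcmp := pow_cmp (z := z) (j := j) (by omega) hj hj2
    have h2j : (12 : ℝ) / 2 ^ j ≤ 12 * (1 / z) := by
      rw [mul_one_div]
      apply div_le_div_of_nonneg_left (by norm_num) hzp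
      have h5 : z ≤ 2 ^ j := by
        calc z ≤ z ^ 20 := Nat.le_self_pow (by norm_num) z
          _ ≤ j := hr1
          _ ≤ 2 ^ j := Nat.lt_two_pow_self.le
      exact_mod_cast h5
    obtain ⟨q, hqd⟩ : ∃ q, q = √ (1 / √ (z : ℝ)) := ⟨_, rfl⟩
    rw [← hqd] at hq hcmp ⊢
    have hq0 : 0 ≤ q := by rw [hqd]; exact Real.sqrt_nonneg _
    clear hr2 hz₀ h1 h2 h3 p40 p11 hj2 hr1 d3
    refine (fin_arith d1 d2' hq h2j hC.le).trans ?_
    have b2 : (16 + 4 * C) * q ≤ (16 + 4 * C) * (2 * (j : ℝ) ^ (-(1 / 80) : ℝ)) :=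
      mul_le_mul_of_nonneg_left hcmp (by positivity)
    refine b2.trans ?_
    have b3 : 0 ≤ (4 * (z₀ : ℝ) ^ 20 + 4) * (j : ℝ) ^ (-(1 / 80) : ℝ) := by positivity
    have b4 : (2 * (16 + 4 * C) + 4 * (z₀ : ℝ) ^ 20 + 4) * (j : ℝ) ^ (-(1 / 80) : ℝ) =
        (16 + 4 * C) * (2 * (j : ℝ) ^ (-(1 / 80) : ℝ)) + (4 * (z₀ : ℝ) ^ 20 + 4) * (j : ℝ) ^ (-(1 / 80) : ℝ) := by
      ring
    rw [b4]
    linarith
  · push Not at hz
    have hjz : j ≤ z₀ ^ 20 := by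
      have := Nat.pow_le_pow_left (show z + 1 ≤ z₀ by omega) 20
      omega
    have hjzr : (j : ℝ) ≤ (z₀ : ℝ) ^ 20 := by exact_mod_cast hjz
    have ha0 : 0 ≤ a := le_trans (by positivity) ha
    have b1 := Ph_bd hf.bd (x := x) ha0
    have b2 : |ex j (fun y => Ph f (3 ^ od j y * x / 2 ^ j) (3 ^ od j y * a / 2 ^ j)) - ex j (fun _ => 0)| ≤ 2 := by
      apply exd
      intro y
      rw [sub_zero]
      exact Ph_bd hf.bd (by positivity)
    rw [ex_const, sub_zero] at b2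
    have b3 := abs_sub (Ph f x a) (ex j (fun y => Ph f (3 ^ od j y * x / 2 ^ j) (3 ^ od j y * a / 2 ^ j)))
    clear hr2 hz₀ hr1 hjz
    have b4 : 1 ≤ (z₀ : ℝ) ^ 20 * (j : ℝ) ^ (-(1 / 80) : ℝ) := by
      rw [Real.rpow_neg hj0.le, ← div_eq_mul_inv, le_div_iff₀ (by positivity), one_mul]
      calc (j : ℝ) ^ ((1 / 80 : ℝ)) ≤ (j : ℝ) ^ (1 : ℝ) := Real.rpow_le_rpow_of_exponent_le hj1 (by norm_num)
        _ = j := Real.rpow_one _
        _ ≤ (z₀ : ℝ) ^ 20 := hjzr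
    have b5 : 0 ≤ (2 * (16 + 4 * C) + 4) * (j : ℝ) ^ (-(1 / 80) : ℝ) := by positivity
    have b6 : (2 * (16 + 4 * C) + 4 * (z₀ : ℝ) ^ 20 + 4) * (j : ℝ) ^ (-(1 / 80) : ℝ) =
        4 * ((z₀ : ℝ) ^ 20 * (j : ℝ) ^ (-(1 / 80) : ℝ)) + (2 * (16 + 4 * C) + 4) * (j : ℝ) ^ (-(1 / 80) : ℝ) := by
      ring
    rw [b6]
    linarith

end Pool.Agent.J4H45.PC
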